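import Pool.Agent.Y303.SK.Stm

/-! Hardy type inequality. -/

open Set Filter Topology MeasureTheory Metric

set_option autoImplicit false

namespace Pool.Agent.Y232.SK

open Pool.Agent.Y5 (E3)
open Pool.Agent.Y303.SK

lemma int_fd_zero {f : E3 → ℝ} (hf : ContDiff ℝ 1 f) (hc : HasCompactSupport f) (w : E3) :
    Integrable (fun x => fderiv ℝ f x w) ∧ ∫ x, fderiv ℝ f x w = 0 := by
  have h1 : Integrable (fun x => fderiv ℝ f x w) :=
    ((hf.continuous_fderiv one_ne_zero).clm_apply continuous_const).integrable_of_hasCompactSupport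
      (hc.fderiv_apply (𝕜 := ℝ) w)
  have h2 : Integrable f := hf.continuous.integrable_of_hasCompactSupport hc
  refine ⟨h1, ?_⟩
  have h := integral_mul_fderiv_eq_neg_fderiv_mul_of_integrable (μ := (volume : Measure E3))
    (f := f) (g := fun _ => (1 : ℝ)) (v := w) (by simpa using h1) (by simp) (by simpa using h2)
    (fun x _ => (hf.differentiable one_ne_zero) x) (fun x _ => differentiableAt_const _)
  simp only [fderiv_fun_const, Pi.zero_apply, zero_apply, mul_zero,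
    integral_zero, mul_one] at h
  linarith

theorem t_HDY : S_HDY := by
  intro v p r hv hr
  have hv1 : ContDiff ℝ 1 v := hv.smooth.of_le (by exact_mod_cast le_top)
  obtain ⟨m, hmdef⟩ : ∃ m : E3 → ℝ, m = fun x => ‖x - p‖ ^ 2 + r ^ 2 := ⟨_, rfl⟩
  have hm : ∀ x, 0 < m x := fun x => by rw [hmdef]; positivity
  obtain ⟨f, hf⟩ : ∃ f : Fin 3 → E3 → ℝ, f = fun i x => ‖v x‖ ^ 2 * ((x i - p i) * (m x)⁻¹) :=
    ⟨_, rfl⟩
  have hmc : ContDiff ℝ 1 m := by
    rw [hmdef]
    exact (contDiff_id.sub contDiff_const).norm_sq ℝ |>.add contDiff_const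
  have hA1 : ContDiff ℝ 1 (fun x => ‖v x‖ ^ 2) := hv1.norm_sq ℝ
  have hfc : ∀ i, ContDiff ℝ 1 (f i) := by
    intro i
    rw [hf]
    refine hA1.mul (ContDiff.mul ?_ (hmc.inv fun x => (hm x).ne'))
    exact ((EuclideanSpace.proj i : E3 →L[ℝ] ℝ).contDiff).sub contDiff_const
  have hAs : HasCompactSupport (fun x => ‖v x‖ ^ 2) := by
    have := hv.cpt.norm
    exact this.comp_left (g := fun t : ℝ => t ^ 2) (by simp)
  have hfs : ∀ i, HasCompactSupport (f i) := by
    intro i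
    rw [hf]
    exact hAs.mul_right
  have hA : ∀ x, HasFDerivAt (fun y => ‖v y‖ ^ 2)
      (2 • (innerSL ℝ (v x)).comp (fderiv ℝ v x)) x := fun x =>
    ((hv1.differentiable one_ne_zero) x).hasFDerivAt.norm_sq
  have hM : ∀ x, HasFDerivAt m (2 • (innerSL ℝ (x - p)).comp (ContinuousLinearMap.id ℝ E3)) x := by
    intro x
    rw [hmdef]
    exact (((hasFDerivAt_id x).sub_const p).norm_sq).add_const _
  have hI : ∀ x, HasFDerivAt (fun y => (m y)⁻¹)
      (-(m x ^ 2)⁻¹ • (2 • (innerSL ℝ (x - p)).comp (ContinuousLinearMap.id ℝ E3))) x := fun x =>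
    (hasDerivAt_inv (hm x).ne').comp_hasFDerivAt x (hM x)
  have hX : ∀ (i : Fin 3) x, HasFDerivAt (fun y : E3 => y i - p i)
      (EuclideanSpace.proj i : E3 →L[ℝ] ℝ) x := fun i x =>
    ((EuclideanSpace.proj i : E3 →L[ℝ] ℝ).hasFDerivAt).sub_const _
  have hfd : ∀ i x, fderiv ℝ (f i) x (cv i) =
      ‖v x‖ ^ 2 * ((m x)⁻¹ - (x i - p i) * (2 * (x i - p i)) * (m x ^ 2)⁻¹) +
      2 * inner ℝ (v x) (fderiv ℝ v x (cv i)) * ((x i - p i) * (m x)⁻¹) := by
    intro i x
    have h1 := ((hA x).mul ((hX i x).mul (hI x))).fderiv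
    have h2 : f i = (fun y => ‖v y‖ ^ 2) * ((fun y => y i - p i) * fun y => (m y)⁻¹) := by
      rw [hf]
      rfl
    rw [h2, h1]
    simp [EuclideanSpace.inner_single_right]
    ring
  have hpt : ∀ x, (ball p r).indicator (fun x => ‖v x‖ ^ 2) x ≤
      4 * r ^ 2 * (∑ i, fderiv ℝ (f i) x (cv i)) +
      8 * r ^ 2 * ∑ i : Fin 3, inner ℝ (fderiv ℝ v x (cv i)) (fderiv ℝ v x (cv i)) := by
    intro x
    have hq : ‖x - p‖ ^ 2 = ∑ i : Fin 3, (x i - p i) ^ 2 := by
      rw [EuclideanSpace.norm_sq_eq]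
      refine Finset.sum_congr rfl fun i _ => ?_
      rw [Real.norm_eq_abs, sq_abs]
      rfl
    have hmx : m x = ‖x - p‖ ^ 2 + r ^ 2 := by rw [hmdef]
    have hk : 0 < (m x)⁻¹ := inv_pos.2 (hm x)
    have hkm : m x * (m x)⁻¹ = 1 := mul_inv_cancel₀ (hm x).ne'
    have hD : ∀ i : Fin 3, 0 ≤ 1 / 2 * ((x i - p i) * (m x)⁻¹) ^ 2 * ‖v x‖ ^ 2 +
        2 * inner ℝ (v x) (fderiv ℝ v x (cv i)) * ((x i - p i) * (m x)⁻¹) +
        2 * inner ℝ (fderiv ℝ v x (cv i)) (fderiv ℝ v x (cv i)) := by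
      intro i
      have h1 : 0 ≤ ‖((x i - p i) * (m x)⁻¹) • v x + (2 : ℝ) • fderiv ℝ v x (cv i)‖ ^ 2 :=
        sq_nonneg _
      rw [norm_add_sq_real, norm_smul, norm_smul, inner_smul_left, inner_smul_right, mul_pow,
        mul_pow, Real.norm_eq_abs, Real.norm_eq_abs, sq_abs, sq_abs,
        ← real_inner_self_eq_norm_sq (fderiv ℝ v x (cv i))] at h1
      simp only [conj_trivial] at h1
      linarith
    have h0 := hD 0
    have h1 := hD 1
    have h2 := hD 2
    simp only [hfd, Fin.sum_univ_three] at hq ⊢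
    rw [← inv_pow]
    obtain ⟨A, hAdef⟩ : ∃ A, A = ‖v x‖ ^ 2 := ⟨_, rfl⟩
    have hA0 : 0 ≤ A := by rw [hAdef]; positivity
    obtain ⟨k, hkdef⟩ : ∃ k, k = (m x)⁻¹ := ⟨_, rfl⟩
    rw [← hAdef, ← hkdef] at h0 h1 h2
    rw [← hkdef] at hk hkm
    rw [hmx, hq] at hkm
    obtain ⟨q, hqdef⟩ : ∃ q, q = (x 0 - p 0) ^ 2 + (x 1 - p 1) ^ 2 + (x 2 - p 2) ^ 2 := ⟨_, rfl⟩
    have hq0 : 0 ≤ q := by rw [hqdef]; positivity
    rw [← hqdef] at hkm
    have hr2 : 0 < r ^ 2 := by positivity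
    have hqk : q * k ≤ 1 := by nlinarith [mul_pos hr2 hk]
    have hqk2 : A * (q * k ^ 2) ≤ A * k := by
      refine mul_le_mul_of_nonneg_left ?_ hA0
      nlinarith
    have key : 2 * r ^ 2 * (A * k) ≤ 4 * r ^ 2 * (3 * (A * k) - 5 / 2 * (A * (q * k ^ 2)) +
        ((1 / 2 * ((x 0 - p 0) * k) ^ 2 * A +
          2 * inner ℝ (v x) (fderiv ℝ v x (cv 0)) * ((x 0 - p 0) * k) +
          2 * inner ℝ (fderiv ℝ v x (cv 0)) (fderiv ℝ v x (cv 0))) +
        (1 / 2 * ((x 1 - p 1) * k) ^ 2 * A +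
          2 * inner ℝ (v x) (fderiv ℝ v x (cv 1)) * ((x 1 - p 1) * k) +
          2 * inner ℝ (fderiv ℝ v x (cv 1)) (fderiv ℝ v x (cv 1))) +
        (1 / 2 * ((x 2 - p 2) * k) ^ 2 * A +
          2 * inner ℝ (v x) (fderiv ℝ v x (cv 2)) * ((x 2 - p 2) * k) +
          2 * inner ℝ (fderiv ℝ v x (cv 2)) (fderiv ℝ v x (cv 2))))) := by
      have e : 2 * r ^ 2 * (A * k) = 4 * r ^ 2 * (1 / 2 * (A * k)) := by ring
      rw [e]
      refine mul_le_mul_of_nonneg_left ?_ (by positivity)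
      linarith
    have hind : (ball p r).indicator (fun x => ‖v x‖ ^ 2) x ≤ 2 * r ^ 2 * (A * k) := by
      by_cases hx : x ∈ ball p r
      · rw [indicator_of_mem hx, ← hAdef]
        have h3 : ‖x - p‖ < r := by rw [← dist_eq_norm]; exact hx
        have h4 : q < r ^ 2 := by
          rw [hqdef, ← hq]
          exact pow_lt_pow_left₀ h3 (norm_nonneg _) two_ne_zero
        have h5 : 1 ≤ 2 * r ^ 2 * k := by nlinarith
        nlinarith
      · rw [indicator_of_notMem hx]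
        positivity
    refine hind.trans (key.trans (le_of_eq ?_))
    rw [hqdef]
    simp only [← hAdef, ← hkdef]
    ring
  have hG : ∀ i, Integrable (fun x => fderiv ℝ (f i) x (cv i)) ∧
      ∫ x, fderiv ℝ (f i) x (cv i) = 0 := fun i => int_fd_zero (hfc i) (hfs i) (cv i)
  have hS : Integrable (fun x => ∑ i : Fin 3,
      inner ℝ (fderiv ℝ v x (cv i)) (fderiv ℝ v x (cv i))) := by
    refine integrable_finsetSum _ fun i _ => ?_
    have hc : Continuous (fun x => fderiv ℝ v x (cv i)) :=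
      (hv1.continuous_fderiv one_ne_zero).clm_apply continuous_const
    refine (hc.inner hc).integrable_of_hasCompactSupport ?_
    have := hv.cpt.fderiv_apply (𝕜 := ℝ) (cv i)
    exact this.comp_left (g := fun t : E3 => inner ℝ t t) (by simp)
  have hAi : Integrable (fun x => ‖v x‖ ^ 2) :=
    hA1.continuous.integrable_of_hasCompactSupport hAs
  rw [← integral_indicator measurableSet_ball]
  have hint : Integrable (fun x => ∑ i, fderiv ℝ (f i) x (cv i)) :=
    integrable_finsetSum _ fun i _ => (hG i).1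
  calc ∫ x, (ball p r).indicator (fun x => ‖v x‖ ^ 2) x ≤
      ∫ x, (4 * r ^ 2 * (∑ i, fderiv ℝ (f i) x (cv i)) +
        8 * r ^ 2 * ∑ i : Fin 3, inner ℝ (fderiv ℝ v x (cv i)) (fderiv ℝ v x (cv i))) :=
        integral_mono (hAi.indicator measurableSet_ball)
          ((hint.const_mul _).add (hS.const_mul _)) hpt
    _ = 8 * r ^ 2 * dirf v v := by
        rw [integral_add (hint.const_mul _) (hS.const_mul _), integral_const_mul,
          integral_const_mul, integral_finsetSum _ fun i _ => (hG i).1,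
          Finset.sum_eq_zero fun i _ => (hG i).2, mul_zero, zero_add]
        rfl

end Pool.Agent.Y232.SK
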